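import Pool.Agent.H.MP_cd3d06_an.UpperGeneral
import Pool.Agent.H.MP_cd3d06_an.L.DBasic

/-! MP_cd3d06_an, module T/Coll: finiteness of the set of collisions, and a bound for the critical
points of the rotated polynomials -/

open Polynomial Metric Set Filter Topology
open scoped ComplexConjugate

namespace Pool.Agent.HZ

open Pool.Agent.H.MP_cd3d06_an in
/-- the collisions of a monic `p` -/
private theorem coll_monic {p q : ℂ[X]} (hp : p.Monic) (hq : q.natDegree < p.natDegree) :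
    (pts p q).Finite := by
  obtain ⟨A, iA, iA', z, w, ρ, h1, h2, hρ, hgen, hchar⟩ := exists_model hp hq
  set n := p.natDegree with hn
  have hmon : ∀ s < n, ∀ t < n,
      ρ (z ^ s * w ^ t) = if s = n - 1 ∧ t = n - 1 then 1 else 0 := by
    intro s hs t ht
    have e := hρ (X ^ s) (X ^ t)
    rw [rho_coeff hp hq (by simpa using hs) (by simpa using ht)] at e
    simp only [map_pow, aeval_X, coeff_X_pow] at e
    rw [e, ← hn]
    by_cases h3 : n - 1 = s
    · by_cases h4 : n - 1 = t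
      · rw [if_pos h3, if_pos h4, if_pos ⟨h3.symm, h4.symm⟩, mul_one]
      · rw [if_neg h4, mul_zero, if_neg (by rintro ⟨_, h⟩; exact h4 h.symm)]
    · rw [if_neg h3, zero_mul, if_neg (by rintro ⟨h, _⟩; exact h3 h.symm)]
  have hsp : mspan n z w = ⊤ := mspan_top ρ hp rfl hq hmon h1 h2 hgen
  have hfin : Module.Finite ℂ A := by
    refine ⟨?_⟩
    rw [← hsp]
    exact Submodule.fg_span (Set.finite_range _)
  by_contra hinf
  obtain ⟨S', hS'1, hS'2⟩ := Set.Infinite.exists_subset_card_eq hinf (n ^ 2 + 1)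
  have := card_le_of_span (span_mv hsp (S := S') (fun s hs =>
    hchar s.1 s.2 (hS'1 hs).1 (hS'1 hs).2))
  omega

open Pool.Agent.H.MP_cd3d06_an in
/-- finiteness of the set of collisions -/
theorem coll_finite {p q : ℂ[X]} (hq : q.natDegree < p.natDegree) :
    {z : ℂ | ∃ w, p.eval z + conj (q.eval w) = 0 ∧ p.eval w + conj (q.eval z) = 0}.Finite := by
  have hp0 : p ≠ 0 := by
    rintro rfl
    simp at hq
  have ha : p.leadingCoeff ≠ 0 := leadingCoeff_ne_zero.2 hp0
  set a := (p.leadingCoeff)⁻¹ with hadef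
  have ha' : a ≠ 0 := inv_ne_zero ha
  have hca : conj a ≠ 0 := by
    rw [Ne, map_eq_zero]
    exact ha'
  have h1 : (C a * p).Monic := by
    rw [Monic, leadingCoeff_mul, leadingCoeff_C, hadef, inv_mul_cancel₀ ha]
  have h2 : (C a * p).natDegree = p.natDegree := natDegree_C_mul ha'
  have h3 : (C (conj a) * q).natDegree = q.natDegree := natDegree_C_mul hca
  have h4 := coll_monic (q := C (conj a) * q) h1 (by rw [h2, h3]; exact hq)
  refine (h4.image Prod.fst).subset ?_
  rintro z ⟨w, e1, e2⟩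
  refine ⟨(z, conj w), ?_, rfl⟩
  refine ⟨?_, ?_⟩
  · show (C a * p).eval z + (cj (C (conj a) * q)).eval (conj w) = 0
    rw [eval_cj, eval_mul, eval_mul, eval_C, eval_C, map_mul, Complex.conj_conj, ← mul_add, e1,
      mul_zero]
  · show (C (conj a) * q).eval z + (cj (C a * p)).eval (conj w) = 0
    rw [eval_cj, eval_mul, eval_mul, eval_C, eval_C, map_mul, ← mul_add]
    have e3 : q.eval z + conj (p.eval w) = conj (p.eval w + conj (q.eval z)) := by
      rw [map_add, Complex.conj_conj, add_comm]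
    rw [e3, e2, map_zero, mul_zero]

/-- outside of a disc `|q| < |p|` -/
theorem norm_lt_of_large {p q : ℂ[X]} (hq : q.natDegree < p.natDegree) :
    ∃ R : ℝ, ∀ z : ℂ, R < ‖z‖ → ‖q.eval z‖ < ‖p.eval z‖ := by
  obtain ⟨k, hk⟩ : ∃ k, p.natDegree = k + 1 := ⟨p.natDegree - 1, by omega⟩
  obtain ⟨c, K, hc, hK, h⟩ := hp_lower (p := p) (q := 0) (by simp; omega)
  set S2 := ∑ i ∈ Finset.range (k + 1), ‖q.coeff i‖ with hS2
  have hS2n : 0 ≤ S2 := Finset.sum_nonneg fun _ _ => norm_nonneg _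
  refine ⟨max K (max 1 (S2 / c)), fun z hz => ?_⟩
  have hz1 : K ≤ ‖z‖ := (le_max_left _ _).trans hz.le
  have hz2 : 1 ≤ ‖z‖ := ((le_max_left _ _).trans (le_max_right _ _)).trans hz.le
  have hz3 : S2 / c < ‖z‖ := ((le_max_right _ _).trans (le_max_right _ _)).trans_lt hz
  have hb : ‖q.eval z‖ ≤ S2 * ‖z‖ ^ k := by
    rw [Polynomial.eval_eq_sum_range' (show q.natDegree < k + 1 by omega), hS2, Finset.sum_mul]
    refine (norm_sum_le _ _).trans (Finset.sum_le_sum fun i hi => ?_)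
    rw [norm_mul, norm_pow]
    have hi' : i ≤ k := Nat.lt_succ_iff.mp (Finset.mem_range.mp hi)
    exact mul_le_mul_of_nonneg_left (pow_le_pow_right₀ hz2 hi') (norm_nonneg _)
  have h1 := h z hz1
  have h2 : hp p 0 z = p.eval z := by simp [hp]
  rw [h2, hk, pow_succ] at h1
  have h3 : S2 < c * ‖z‖ := by
    rw [div_lt_iff₀ hc] at hz3
    linarith
  have h4 : 0 < ‖z‖ ^ k := by positivity
  calc ‖q.eval z‖ ≤ S2 * ‖z‖ ^ k := hb
    _ < c * ‖z‖ * ‖z‖ ^ k := mul_lt_mul_of_pos_right h3 h4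
    _ = c * (‖z‖ ^ k * ‖z‖) := by ring
    _ ≤ ‖p.eval z‖ := h1

end Pool.Agent.HZ
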