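import Pool.Agent.H.MP_cd3d06_an.T.Choose
import Pool.Agent.H.MP_cd3d06_an.T.Coll
import Pool.Agent.H.MP_cd3d06_an.K.Iface

/-! MP_cd3d06_an, module T/Rot: the rotation step, `PreGen` to `Gen`, and the conclusion of part E -/

open Polynomial Metric Set Filter Topology
open scoped ComplexConjugate

namespace Pool.Agent.HZ

/-- the unit complex number -/
private noncomputable def ee (θ : ℝ) : ℂ := Complex.exp (θ * Complex.I)

private theorem ee_ne (θ : ℝ) : ee θ ≠ 0 := Complex.exp_ne_zero _

private theorem conj_ee (θ : ℝ) : conj (ee θ) = Complex.exp (-(θ * Complex.I)) := by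
  rw [ee, ← Complex.exp_conj, map_mul, Complex.conj_I, Complex.conj_ofReal, mul_neg]

private theorem ee_mul_conj (θ : ℝ) : ee θ * conj (ee θ) = 1 := by
  rw [conj_ee, ee, ← Complex.exp_add, add_neg_cancel, Complex.exp_zero]

private theorem ee_re (θ : ℝ) : (ee θ).re = Real.cos θ := by
  rw [ee, Complex.exp_ofReal_mul_I_re]

private theorem ee_im (θ : ℝ) : (ee θ).im = Real.sin θ := by
  rw [ee, Complex.exp_ofReal_mul_I_im]

private theorem norm_ee (θ : ℝ) : ‖ee θ‖ = 1 := Complex.norm_exp_ofReal_mul_I θ

private theorem sin_zero_small {x y : ℝ} (hx : x ∈ Ioo (0 : ℝ) 1) (hy : y ∈ Ioo (0 : ℝ) 1)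
    (h : Real.sin (x - y) = 0) : x = y := by
  have h1 := Real.pi_gt_three
  have h2 : x - y = 0 := by
    apply (Real.sin_eq_zero_iff_of_lt_of_lt (by linarith [hx.1, hy.2]) (by linarith [hx.2, hy.1])).1 h
  linarith

/-- at most one angle with `Im (e^{iθ} w) = 0` -/
private theorem fin_im {w : ℂ} (hw : w ≠ 0) : {θ : ℝ | θ ∈ Ioo (0 : ℝ) 1 ∧ (ee θ * w).im = 0}.Finite := by
  apply Set.Subsingleton.finite
  rintro x ⟨hx, hx0⟩ y ⟨hy, hy0⟩
  apply sin_zero_small hx hy
  rw [Complex.mul_im, ee_re, ee_im] at hx0 hy0
  rw [Real.sin_sub]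
  have e1 : (Real.sin x * Real.cos y - Real.cos x * Real.sin y) * w.re = 0 := by
    linear_combination Real.cos y * hx0 - Real.cos x * hy0
  have e2 : (Real.sin x * Real.cos y - Real.cos x * Real.sin y) * w.im = 0 := by
    linear_combination -Real.sin y * hx0 + Real.sin x * hy0
  by_contra hne
  apply hw
  apply Complex.ext
  · exact (mul_eq_zero.1 e1).resolve_left hne
  · exact (mul_eq_zero.1 e2).resolve_left hne

/-- at most one angle with `Re (e^{-iθ} w) = 0` -/
private theorem fin_re {w : ℂ} (hw : w ≠ 0) :
    {θ : ℝ | θ ∈ Ioo (0 : ℝ) 1 ∧ (conj (ee θ) * w).re = 0}.Finite := by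
  apply Set.Subsingleton.finite
  rintro x ⟨hx, hx0⟩ y ⟨hy, hy0⟩
  apply sin_zero_small hx hy
  rw [Complex.mul_re, Complex.conj_re, Complex.conj_im, ee_re, ee_im] at hx0 hy0
  rw [Real.sin_sub]
  have e1 : (Real.sin x * Real.cos y - Real.cos x * Real.sin y) * w.re = 0 := by
    linear_combination -Real.sin y * hx0 + Real.sin x * hy0
  have e2 : (Real.sin x * Real.cos y - Real.cos x * Real.sin y) * w.im = 0 := by
    linear_combination Real.cos y * hx0 - Real.cos x * hy0
  by_contra hne
  apply hw
  apply Complex.ext
  · exact (mul_eq_zero.1 e1).resolve_left hne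
  · exact (mul_eq_zero.1 e2).resolve_left hne

/-- at most one angle with `e^{iθ} a = e^{-iθ} b` -/
private theorem fin_eq {a b : ℂ} (hab : a ≠ 0 ∨ b ≠ 0) :
    {θ : ℝ | θ ∈ Ioo (0 : ℝ) 1 ∧ ee θ * a = conj (ee θ) * b}.Finite := by
  apply Set.Subsingleton.finite
  rintro x ⟨hx, hx0⟩ y ⟨hy, hy0⟩
  have ha : a ≠ 0 := by
    rcases hab with h | h
    · exact h
    · rintro rfl
      rw [mul_zero] at hx0
      rcases mul_eq_zero.1 hx0.symm with h1 | h1
      · rw [map_eq_zero] at h1
        exact ee_ne x h1
      · exact h h1
  have hxx := ee_mul_conj x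
  have hyy := ee_mul_conj y
  -- `e(x)^2 = e(y)^2`
  have h1 : ee x * ee x * a = b := by
    linear_combination ee x * hx0 + b * hxx
  have h2 : ee y * ee y * a = b := by
    linear_combination ee y * hy0 + b * hyy
  have h3 : ee x * ee x = ee y * ee y := mul_right_cancel₀ ha (h1.trans h2.symm)
  -- `e(x) conj e(y)` is real
  have h4 : (ee x * conj (ee y)).im = 0 := by
    have h5 : ee x * conj (ee y) = conj (ee x * conj (ee y)) := by
      rw [map_mul, Complex.conj_conj]
      linear_combination conj (ee x) * conj (ee y) * h3 - ee x * conj (ee y) * hxx +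
        ee y * conj (ee x) * hyy
    have h6 := congrArg Complex.im h5
    rw [Complex.conj_im] at h6
    linarith
  rw [Complex.mul_im, Complex.conj_re, Complex.conj_im, ee_re, ee_im, ee_re, ee_im] at h4
  apply sin_zero_small hx hy
  rw [Real.sin_sub]
  linarith

/-- the branch condition persists for small angles -/
private theorem branch_small {p q : ℂ[X]} (hp : 1 < p.natDegree) (hq : q.natDegree < p.natDegree)
    (hb : ∀ z, (derivative (p - q)).eval z = 0 → ((p - q).eval z).im ≠ 0) :
    ∃ δ > 0, ∀ θ : ℝ, 0 < θ → θ < δ → ∀ z : ℂ,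
      ee θ * (derivative p).eval z = conj (ee θ) * (derivative q).eval z →
      (ee θ * p.eval z - conj (ee θ) * q.eval z).im ≠ 0 := by
  have hd1 : (derivative p).natDegree = p.natDegree - 1 := natDegree_derivative p
  have hd2 : (derivative q).natDegree = q.natDegree - 1 := natDegree_derivative q
  obtain ⟨R, hR⟩ := norm_lt_of_large (p := derivative p) (q := derivative q) (by omega)
  have hee : Continuous ee := by unfold ee; fun_prop
  set K : Set (ℝ × ℂ) := {x | x ∈ Icc (0 : ℝ) 1 ×ˢ closedBall (0 : ℂ) R ∧
    (ee x.1 * (derivative p).eval x.2 = conj (ee x.1) * (derivative q).eval x.2 ∧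
      (ee x.1 * p.eval x.2 - conj (ee x.1) * q.eval x.2).im = 0)} with hK
  have hKc : IsCompact K := by
    refine (isCompact_Icc.prod (isCompact_closedBall (0 : ℂ) R)).inter_right ?_
    have c1 : Continuous fun x : ℝ × ℂ => ee x.1 := hee.comp continuous_fst
    have c2 : Continuous fun x : ℝ × ℂ => conj (ee x.1) := Complex.continuous_conj.comp c1
    have c3 : ∀ r : ℂ[X], Continuous fun x : ℝ × ℂ => r.eval x.2 := fun r =>
      r.continuous.comp continuous_snd
    refine IsClosed.inter ?_ ?_
    · exact isClosed_eq (c1.mul (c3 _)) (c2.mul (c3 _))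
    · exact isClosed_eq (Complex.continuous_im.comp ((c1.mul (c3 _)).sub (c2.mul (c3 _))))
        continuous_const
  have h0 : (0 : ℝ) ∉ Prod.fst '' K := by
    rintro ⟨⟨t, z⟩, ⟨-, h1, h2⟩, rfl⟩
    have e0 : ee (0 : ℝ) = 1 := by simp [ee]
    simp only [e0, map_one, one_mul] at h1 h2
    apply hb z
    · rw [derivative_sub, eval_sub, h1, sub_self]
    · rw [eval_sub]
      exact h2
  have hcl : IsClosed (Prod.fst '' K) := (hKc.image continuous_fst).isClosed
  obtain ⟨δ, hδ, hball⟩ := Metric.isOpen_iff.1 hcl.isOpen_compl 0 h0
  refine ⟨min δ 1, lt_min hδ one_pos, fun θ h1 h2 z h3 h4 => ?_⟩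
  have h5 : θ ∈ ball (0 : ℝ) δ := by
    rw [mem_ball_zero_iff, Real.norm_eq_abs, abs_of_pos h1]
    exact h2.trans_le (min_le_left _ _)
  apply hball h5
  refine ⟨(θ, z), ⟨⟨⟨h1.le, (h2.trans_le (min_le_right _ _)).le⟩, ?_⟩, h3, h4⟩, rfl⟩
  rw [mem_closedBall_zero_iff]
  by_contra hlt
  push Not at hlt
  have h6 := hR z hlt
  have h7 := congrArg norm h3
  rw [norm_mul, norm_mul, RCLike.norm_conj, norm_ee, one_mul, one_mul] at h7
  rw [h7] at h6
  exact lt_irrefl _ h6

/-- the Wronskian of the derivatives does not vanish identically -/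
private theorem wronskian_ne {p q : ℂ[X]} (h1 : 1 ≤ q.natDegree) (h2 : q.natDegree < p.natDegree) :
    derivative p * derivative (derivative q) - derivative q * derivative (derivative p) ≠ 0 := by
  set n := p.natDegree with hn
  set m := q.natDegree with hm
  have hp0 : p ≠ 0 := by rintro rfl; simp at hn; omega
  have hq0 : q ≠ 0 := by rintro rfl; simp at hm; omega
  have hp1 : (derivative p).natDegree = n - 1 := natDegree_derivative p
  have hq1 : (derivative q).natDegree = m - 1 := natDegree_derivative q
  -- the coefficient of degree `n + m - 3`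
  intro h0
  have hpd : derivative p ≠ 0 := by
    intro h
    have := derivative_eq_zero.1 h
    omega
  have hqd : derivative q ≠ 0 := by
    intro h
    have := derivative_eq_zero.1 h
    omega
  have hlp : (derivative p).leadingCoeff ≠ 0 := leadingCoeff_ne_zero.2 hpd
  have hlq : (derivative q).leadingCoeff ≠ 0 := leadingCoeff_ne_zero.2 hqd
  have h3 : derivative p * derivative (derivative q) = derivative q * derivative (derivative p) :=
    sub_eq_zero.1 h0
  -- multiply by `X` to avoid degree drops: compare coefficients of degree `n + m - 2`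
  have h4 : (derivative p * (X * derivative (derivative q))).coeff (n + m - 2) =
      (derivative q * (X * derivative (derivative p))).coeff (n + m - 2) := by
    have : derivative p * (X * derivative (derivative q)) =
        derivative q * (X * derivative (derivative p)) := by
      linear_combination X * h3
    rw [this]
  have hX : ∀ r : ℂ[X], (X * derivative r).natDegree ≤ r.natDegree := by
    intro r
    by_cases hr : r.natDegree = 0
    · have : derivative r = 0 := by
        rw [eq_C_of_natDegree_eq_zero hr, derivative_C]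
      rw [this]
      simp
    · refine natDegree_mul_le.trans ?_
      rw [natDegree_X, natDegree_derivative]
      omega
  have hXc : ∀ r : ℂ[X], (X * derivative r).coeff r.natDegree = r.natDegree * r.leadingCoeff := by
    intro r
    rcases Nat.eq_zero_or_pos r.natDegree with hr | hr
    · rw [hr]
      simp
    · obtain ⟨k, hk⟩ : ∃ k, r.natDegree = k + 1 := ⟨r.natDegree - 1, by omega⟩
      rw [hk, coeff_X_mul, coeff_derivative, leadingCoeff, hk]
      push_cast
      ring
  have e1 : n + m - 2 = (n - 1) + (m - 1) := by omega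
  have e2 : n + m - 2 = (m - 1) + (n - 1) := by omega
  have h5 : (derivative p * (X * derivative (derivative q))).coeff (n + m - 2) =
      (derivative p).leadingCoeff * (((m - 1 : ℕ) : ℂ) * (derivative q).leadingCoeff) := by
    rw [e1, coeff_mul_add_eq_of_natDegree_le hp1.le ((hX _).trans hq1.le)]
    congr 1
    · rw [leadingCoeff, hp1]
    · have := hXc (derivative q)
      rw [hq1] at this
      exact this
  have h6 : (derivative q * (X * derivative (derivative p))).coeff (n + m - 2) =
      (derivative q).leadingCoeff * (((n - 1 : ℕ) : ℂ) * (derivative p).leadingCoeff) := by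
    rw [e2, coeff_mul_add_eq_of_natDegree_le hq1.le ((hX _).trans hp1.le)]
    congr 1
    · rw [leadingCoeff, hq1]
    · have := hXc (derivative p)
      rw [hp1] at this
      exact this
  rw [h5, h6] at h4
  have h7 : ((m - 1 : ℕ) : ℂ) = ((n - 1 : ℕ) : ℂ) := by
    apply mul_right_cancel₀ (mul_ne_zero hlp hlq)
    linear_combination h4
  have h8 : m - 1 = n - 1 := by exact_mod_cast h7
  omega

/-- **The rotation step.** -/
theorem rot {p q : ℂ[X]} (h : PreGen p q) : ∃ θ : ℝ,
    HK.Gen (C (Complex.exp (θ * Complex.I)) * p) (C (Complex.exp (-(θ * Complex.I))) * q)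
      (C (Complex.exp (θ * Complex.I)) * p - C (Complex.exp (-(θ * Complex.I))) * q)
      (C (Complex.exp (θ * Complex.I)) * p + C (Complex.exp (-(θ * Complex.I))) * q) := by
  have hd1 := h.d1
  have hd2 := h.d2
  set Nd := {z : ℂ | ∃ w, w ≠ z ∧ p.eval w = p.eval z ∧ q.eval w = q.eval z} with hNd
  set Cl := {z : ℂ | ∃ w, p.eval z + conj (q.eval w) = 0 ∧ p.eval w + conj (q.eval z) = 0} with hCl
  have hNdf : Nd.Finite := h.nodes
  have hClf : Cl.Finite := coll_finite hd2
  set Wr := {z : ℂ | (derivative p * derivative (derivative q) -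
    derivative q * derivative (derivative p)).eval z = 0} with hWr
  have hWrf : Wr.Finite := by
    refine (Finset.finite_toSet (derivative p * derivative (derivative q) -
      derivative q * derivative (derivative p)).roots.toFinset).subset ?_
    intro z hz
    simp only [Finset.mem_coe, Multiset.mem_toFinset]
    exact (mem_roots (wronskian_ne hd1 hd2)).2 hz
  set Z := {z : ℂ | hp p q z = 0} with hZ
  have hZf : Z.Finite := hp_finite hd1 hd2
  have hcp : ∀ z, (derivative p).eval z ≠ 0 ∨ (derivative q).eval z ≠ 0 := by
    intro z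
    by_cases hz : (derivative p).eval z = 0
    · exact Or.inr (h.cp z hz)
    · exact Or.inl hz
  -- finitely many excluded angles
  have B1 : (⋃ z ∈ Nd ∪ Cl ∪ Wr, {θ : ℝ | θ ∈ Ioo (0 : ℝ) 1 ∧
      ee θ * (derivative p).eval z = conj (ee θ) * (derivative q).eval z}).Finite :=
    ((hNdf.union hClf).union hWrf).biUnion fun z _ => fin_eq (hcp z)
  have B2 : (⋃ z ∈ (Nd ∪ Cl) \ Z, {θ : ℝ | θ ∈ Ioo (0 : ℝ) 1 ∧
      (ee θ * hp p q z).im = 0}).Finite :=
    ((hNdf.union hClf).subset sdiff_subset).biUnion fun z hz => fin_im hz.2
  have B3 : (⋃ x ∈ {x : ℂ × ℂ | x ∈ Z ×ˢ Z ∧ q.eval x.1 - q.eval x.2 ≠ 0},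
      {θ : ℝ | θ ∈ Ioo (0 : ℝ) 1 ∧ (conj (ee θ) * (q.eval x.1 - q.eval x.2)).re = 0}).Finite :=
    ((hZf.prod hZf).subset fun x hx => hx.1).biUnion fun x hx => fin_re hx.2
  obtain ⟨δ, hδ, hbr⟩ := branch_small (by omega) hd2 h.branch
  have hinf : (Ioo (0 : ℝ) (min δ 1)).Infinite := Ioo_infinite (lt_min hδ one_pos)
  obtain ⟨θ, hθ, hθB⟩ := hinf.exists_notMem_finite ((B1.union B2).union B3)
  have hθ1 : θ ∈ Ioo (0 : ℝ) 1 := ⟨hθ.1, hθ.2.trans_le (min_le_right _ _)⟩
  have hθδ : θ < δ := hθ.2.trans_le (min_le_left _ _)
  have X1 : ∀ z ∈ Nd ∪ Cl ∪ Wr,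
      ee θ * (derivative p).eval z ≠ conj (ee θ) * (derivative q).eval z := by
    intro z hz h1
    apply hθB
    refine Or.inl (Or.inl ?_)
    simp only [mem_iUnion]
    exact ⟨z, hz, hθ1, h1⟩
  have X2 : ∀ z ∈ Nd ∪ Cl, hp p q z ≠ 0 → (ee θ * hp p q z).im ≠ 0 := by
    intro z hz h0 h1
    apply hθB
    refine Or.inl (Or.inr ?_)
    simp only [mem_iUnion]
    exact ⟨z, ⟨hz, h0⟩, hθ1, h1⟩
  have X3 : ∀ z w, hp p q z = 0 → hp p q w = 0 → q.eval z - q.eval w ≠ 0 →
      (conj (ee θ) * (q.eval z - q.eval w)).re ≠ 0 := by
    intro z w hz hw h0 h1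
    apply hθB
    refine Or.inr ?_
    simp only [mem_iUnion]
    exact ⟨(z, w), ⟨⟨hz, hw⟩, h0⟩, hθ1, h1⟩
  -- formulas
  set e := ee θ with he
  have hee : Complex.exp (θ * Complex.I) = e := rfl
  have hee' : Complex.exp (-(θ * Complex.I)) = conj e := (conj_ee θ).symm
  have he0 : e ≠ 0 := ee_ne θ
  have hce0 : conj e ≠ 0 := by rw [Ne, map_eq_zero]; exact he0
  have hec : e * conj e = 1 := ee_mul_conj θ
  refine ⟨θ, ?_⟩
  rw [hee, hee']
  have evH : ∀ z, (C e * p - C (conj e) * q).eval z = e * p.eval z - conj e * q.eval z := by
    intro z; simp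
  have evS : ∀ z, (C e * p + C (conj e) * q).eval z = e * p.eval z + conj e * q.eval z := by
    intro z; simp
  have evH' : ∀ z, (derivative (C e * p - C (conj e) * q)).eval z =
      e * (derivative p).eval z - conj e * (derivative q).eval z := by
    intro z; simp
  have evS' : ∀ z, (derivative (C e * p + C (conj e) * q)).eval z =
      e * (derivative p).eval z + conj e * (derivative q).eval z := by
    intro z; simp
  have evH'' : ∀ z, (derivative (derivative (C e * p - C (conj e) * q))).eval z =
      e * (derivative (derivative p)).eval z - conj e * (derivative (derivative q)).eval z := by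
    intro z; simp
  have imH : ∀ z, (e * p.eval z - conj e * q.eval z).im = (e * hp p q z).im := by
    intro z
    simp only [hp, Complex.sub_im, Complex.mul_im, Complex.add_im, Complex.add_re,
      Complex.conj_re, Complex.conj_im]
    ring
  -- nodes of the rotated pair
  have node : ∀ z w, (C e * p - C (conj e) * q).eval z = (C e * p - C (conj e) * q).eval w →
      (C e * p + C (conj e) * q).eval z = (C e * p + C (conj e) * q).eval w →
      p.eval z = p.eval w ∧ q.eval z = q.eval w := by
    intro z w e1 e2
    rw [evH, evH] at e1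
    rw [evS, evS] at e2
    constructor
    · apply mul_left_cancel₀ he0
      linear_combination (e1 + e2) / 2
    · apply mul_left_cancel₀ hce0
      linear_combination (e2 - e1) / 2
  -- collisions of the rotated pair
  have coll : ∀ z w, (C e * p - C (conj e) * q).eval z =
      conj ((C e * p - C (conj e) * q).eval w) →
      (C e * p + C (conj e) * q).eval z = -conj ((C e * p + C (conj e) * q).eval w) →
      p.eval z + conj (q.eval w) = 0 ∧ p.eval w + conj (q.eval z) = 0 := by
    intro z w e1 e2
    rw [evH, evH, map_sub, map_mul, map_mul, Complex.conj_conj] at e1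
    rw [evS, evS, map_add, map_mul, map_mul, Complex.conj_conj] at e2
    constructor
    · apply mul_left_cancel₀ he0
      linear_combination (e1 + e2) / 2
    · have e3 : conj e * (q.eval z + conj (p.eval w)) = 0 := by
        linear_combination (e2 - e1) / 2
      have e4 : q.eval z + conj (p.eval w) = 0 := (mul_eq_zero.1 e3).resolve_left hce0
      have e5 := congrArg conj e4
      rw [map_add, Complex.conj_conj, map_zero] at e5
      rw [add_comm]
      exact e5
  have hself : ∀ z w, z ≠ w → p.eval z = p.eval w → q.eval z = q.eval w → hp p q z ≠ 0 :=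
    fun z w h1 h2 h3 h4 => h.nodecoll z w z h1 h2.symm h3.symm h4 h4
  exact
    { hH := rfl
      hS := rfl
      g1 := by
        intro z hz
        have hz' : e * (derivative p).eval z = conj e * (derivative q).eval z := by
          have hz1 : (derivative (C e * p - C (conj e) * q)).eval z = 0 := hz
          rw [evH'] at hz1
          exact sub_eq_zero.1 hz1
        refine ⟨?_, ?_, ?_⟩
        · intro h1
          have h2 : e * (derivative (derivative p)).eval z =
              conj e * (derivative (derivative q)).eval z := by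
            have h1' : (derivative (derivative (C e * p - C (conj e) * q))).eval z = 0 := h1
            rw [evH''] at h1'
            exact sub_eq_zero.1 h1'
          refine X1 z (Or.inr ?_) hz'
          show (derivative p * derivative (derivative q) -
            derivative q * derivative (derivative p)).eval z = 0
          rw [eval_sub, eval_mul, eval_mul]
          linear_combination (conj e * (derivative (derivative q)).eval z) * hz' -
            (conj e * (derivative q).eval z) * h2 -
            ((derivative p).eval z * (derivative (derivative q)).eval z -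
            (derivative q).eval z * (derivative (derivative p)).eval z) * hec
        · intro h1
          have h1' : (derivative (C e * p + C (conj e) * q)).eval z = 0 := h1
          rw [evS'] at h1'
          have h2 : e * (derivative p).eval z = 0 := by linear_combination (h1' + hz') / 2
          have h3 : conj e * (derivative q).eval z = 0 := by linear_combination (h1' - hz') / 2
          rcases hcp z with h4 | h4
          · exact h4 ((mul_eq_zero.1 h2).resolve_left he0)
          · exact h4 ((mul_eq_zero.1 h3).resolve_left hce0)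
        · rw [evH]
          exact hbr θ hθ1.1 hθδ z hz'
      g2 := by
        intro z w hzw e1 e2
        obtain ⟨n1, n2⟩ := node z w e1 e2
        have hzN : z ∈ Nd := ⟨w, hzw.symm, n1.symm, n2.symm⟩
        refine ⟨?_, ?_, ?_⟩
        · intro h1
          have h1' : (derivative (C e * p - C (conj e) * q)).eval z = 0 := h1
          rw [evH'] at h1'
          exact X1 z (Or.inl (Or.inl hzN)) (sub_eq_zero.1 h1')
        · rw [evH, imH]
          exact X2 z (Or.inl hzN) (hself z w hzw n1 n2)
        · intro u u1 u2
          obtain ⟨n3, n4⟩ := node u z u1 u2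
          by_contra hu
          push Not at hu
          exact h.triple z w u hzw (Ne.symm hu.1) (Ne.symm hu.2) n1 n3.symm n2 n4.symm
      g3 := by
        intro z w e1 e2
        obtain ⟨c1, c2⟩ := coll z w e1 e2
        have hzC : z ∈ Cl := ⟨w, c1, c2⟩
        refine ⟨?_, ?_, ?_⟩
        · intro h1
          have h1' : (derivative (C e * p - C (conj e) * q)).eval z = 0 := h1
          rw [evH'] at h1'
          exact X1 z (Or.inl (Or.inr hzC)) (sub_eq_zero.1 h1')
        · intro hzw
          rw [evH, imH]
          refine X2 z (Or.inr hzC) ?_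
          intro h0
          have h0' : p.eval z + conj (q.eval z) = 0 := h0
          have h3 : q.eval w = q.eval z := by
            apply (starRingEnd ℂ).injective
            linear_combination c1 - h0'
          have h4 : p.eval w = p.eval z := by linear_combination c2 - h0'
          exact hself z w hzw h4.symm h3.symm h0
        · intro u huz u1 u2
          obtain ⟨n3, n4⟩ := node u z u1 u2
          exact h.nodecoll z u w huz.symm n3 n4 c1 c2
      g4 := by
        intro z hz
        have key : ∀ z, (C e * p).eval z + conj ((C (conj e) * q).eval z) = e * hp p q z := by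
          intro z
          rw [eval_mul, eval_mul, eval_C, eval_C, map_mul, Complex.conj_conj, hp]
          ring
        have hz0 : hp p q z = 0 := by
          rw [key] at hz
          exact (mul_eq_zero.1 hz).resolve_left he0
        refine ⟨?_, ?_⟩
        · have h1 : (derivative (C e * p)).eval z = e * (derivative p).eval z := by simp
          have h2 : (derivative (C (conj e) * q)).eval z = conj e * (derivative q).eval z := by simp
          have h3 : ‖e‖ = 1 := norm_ee θ
          show ‖(derivative (C e * p)).eval z‖ ≠ ‖(derivative (C (conj e) * q)).eval z‖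
          rw [h1, h2, norm_mul, norm_mul, RCLike.norm_conj, h3, one_mul, one_mul]
          exact h.reg z hz0
        · intro w hw hHw
          have hw0 : hp p q w = 0 := by
            rw [key] at hw
            exact (mul_eq_zero.1 hw).resolve_left he0
          by_contra hne
          have hqne : q.eval z - q.eval w ≠ 0 := by
            intro h0
            have h1 : q.eval z = q.eval w := sub_eq_zero.1 h0
            have h2 : p.eval z = p.eval w := by
              have a1 : p.eval z + conj (q.eval z) = 0 := hz0
              have a2 : p.eval w + conj (q.eval w) = 0 := hw0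
              rw [h1] at a1
              linear_combination a1 - a2
            exact hself z w hne h2 h1 hz0
          apply X3 z w hz0 hw0 hqne
          rw [evH, evH] at hHw
          have a1 : p.eval z = -conj (q.eval z) := by
            have : p.eval z + conj (q.eval z) = 0 := hz0
            linear_combination this
          have a2 : p.eval w = -conj (q.eval w) := by
            have : p.eval w + conj (q.eval w) = 0 := hw0
            linear_combination this
          rw [a1, a2] at hHw
          have h3 := congrArg Complex.re hHw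
          simp only [Complex.sub_re, Complex.mul_re, Complex.neg_re, Complex.neg_im,
            Complex.conj_re, Complex.conj_im] at h3
          rw [Complex.mul_re, Complex.conj_re, Complex.conj_im, Complex.sub_re, Complex.sub_im]
          linarith
      fin_nodes := by
        refine hNdf.subset ?_
        rintro z ⟨w, hne, e1, e2⟩
        obtain ⟨n1, n2⟩ := node w z e1 e2
        exact ⟨w, hne, n1, n2⟩
      fin_coll := by
        refine hClf.subset ?_
        rintro z ⟨w, e1, e2⟩
        exact ⟨w, coll z w e1 e2⟩ }

/-- **Part E.** -/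
theorem exists_gen {p q : ℂ[X]} (h1 : 1 ≤ q.natDegree) (h2 : q.natDegree < p.natDegree) :
    ∃ P Q : ℂ[X], P.natDegree = p.natDegree ∧ Q.natDegree = q.natDegree ∧
      HK.Gen P Q (P - Q) (P + Q) ∧
      {z | p.eval z + conj (q.eval z) = 0}.ncard ≤ {z | P.eval z + conj (Q.eval z) = 0}.ncard := by
  obtain ⟨p', q', d1, d2, hpg, hn⟩ := exists_preGen h1 h2
  obtain ⟨θ, hg⟩ := rot hpg
  have he0 : Complex.exp (θ * Complex.I) ≠ 0 := Complex.exp_ne_zero _
  have he1 : Complex.exp (-(θ * Complex.I)) ≠ 0 := Complex.exp_ne_zero _
  refine ⟨_, _, ?_, ?_, hg, ?_⟩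
  · rw [natDegree_C_mul he0, d1]
  · rw [natDegree_C_mul he1, d2]
  · refine hn.trans (le_of_eq ?_)
    congr 1
    ext z
    simp only [mem_ofPred_eq, hp]
    have hc : conj (Complex.exp (-(θ * Complex.I))) = Complex.exp (θ * Complex.I) := by
      rw [← conj_ee, Complex.conj_conj]
      rfl
    rw [eval_mul, eval_mul, eval_C, eval_C, map_mul, hc, ← mul_add]
    constructor
    · intro h
      rw [h, mul_zero]
    · intro h
      exact (mul_eq_zero.1 h).resolve_left he0

end Pool.Agent.HZ
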