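import Mathlib

/-! MP_cd3d06_an, module T/Elim: elimination by integrality, and the choice of the small
perturbation `q + a X + b X ^ 2`. -/

open Polynomial

namespace Pool.Agent.HZ

/-- triples of points with the same value of `p` -/
def Tr (p : ℂ[X]) : Type :=
  {x : ℂ × ℂ × ℂ // p.eval x.2.1 = p.eval x.1 ∧ p.eval x.2.2 = p.eval x.1}

/-- the functions on `Tr p` as an algebra over `ℂ[X]`, through the first coordinate -/
noncomputable def frz (p : ℂ[X]) : ℂ[X] →+* (Tr p → ℂ) :=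
  RingHom.pi fun t => evalRingHom t.1.1

theorem frz_apply (p f : ℂ[X]) (t : Tr p) : frz p f t = f.eval t.1.1 := rfl

/-- the functions which are integral over `ℂ[X]` -/
noncomputable def S0 (p : ℂ[X]) : Subring (Tr p → ℂ) :=
  letI := (frz p).toAlgebra
  (integralClosure ℂ[X] (Tr p → ℂ)).toSubring

theorem mem_S0 {p : ℂ[X]} {g : Tr p → ℂ} : g ∈ S0 p ↔ (frz p).IsIntegralElem g := Iff.rfl

/-- the elimination lemma -/
theorem elim {p : ℂ[X]} {g : Tr p → ℂ} (hg : g ∈ S0 p) :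
    ∃ Bad : Set ℂ, Bad.Finite ∧ ∀ t ∉ Bad, {z : ℂ | ∃ x : Tr p, x.1.1 = z ∧ g x = t}.Finite := by
  obtain ⟨Φ, hΦ, h0⟩ := mem_S0.1 hg
  have hpt : ∀ x : Tr p, (Φ.map (evalRingHom x.1.1)).eval (g x) = 0 := by
    intro x
    have h1 := congrFun h0 x
    rw [eval_map]
    have h2 : (eval₂ (frz p) g Φ) x = eval₂ ((Pi.evalRingHom (fun _ : Tr p => ℂ) x).comp (frz p))
        (g x) Φ := by
      have := hom_eval₂ Φ (frz p) (Pi.evalRingHom (fun _ : Tr p => ℂ) x) g
      simpa using this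
    rw [h2] at h1
    exact h1
  refine ⟨{t | (Φ.map (evalRingHom 0)).eval t = 0}, ?_, ?_⟩
  · have hm : (Φ.map (evalRingHom (0 : ℂ))).Monic := hΦ.map _
    refine (Finset.finite_toSet (Φ.map (evalRingHom (0 : ℂ))).roots.toFinset).subset ?_
    intro t ht
    simp only [Finset.mem_coe, Multiset.mem_toFinset]
    exact (mem_roots hm.ne_zero).2 ht
  · intro t ht
    have hG : ∀ z : ℂ, (Φ.eval (C t)).eval z = (Φ.map (evalRingHom z)).eval t := by
      intro z
      have h1 := hom_eval₂ Φ (RingHom.id _) (evalRingHom z) (C t)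
      rw [RingHom.comp_id] at h1
      rw [eval_map]
      simpa [eval₂_id] using h1
    have hne : Φ.eval (C t) ≠ 0 := by
      intro h1
      apply ht
      show (Φ.map (evalRingHom 0)).eval t = 0
      rw [← hG 0, h1, eval_zero]
    refine (Finset.finite_toSet (Φ.eval (C t)).roots.toFinset).subset ?_
    rintro z ⟨x, rfl, hx⟩
    simp only [Finset.mem_coe, Multiset.mem_toFinset]
    rw [mem_roots hne, IsRoot.def, hG, ← hx]
    exact hpt x

/-- the coordinate functions -/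
def cz (p : ℂ[X]) : Tr p → ℂ := fun t => t.1.1
def cw (p : ℂ[X]) : Tr p → ℂ := fun t => t.1.2.1
def cu (p : ℂ[X]) : Tr p → ℂ := fun t => t.1.2.2

theorem frz_mem (p f : ℂ[X]) : frz p f ∈ S0 p := (frz p).isIntegralElem_map

theorem cz_mem (p : ℂ[X]) : cz p ∈ S0 p := by
  have h : cz p = frz p X := by
    funext t
    rw [frz_apply, eval_X]
    rfl
  rw [h]
  exact frz_mem p X

theorem const_mem (p : ℂ[X]) (a : ℂ) : (fun _ : Tr p => a) ∈ S0 p := by
  have h : (fun _ : Tr p => a) = frz p (C a) := by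
    funext t
    rw [frz_apply, eval_C]
  rw [h]
  exact frz_mem p _

/-- a function with `p (g t) = p (z t)` is integral -/
theorem coord_mem {p : ℂ[X]} (hp : 0 < p.natDegree) {g : Tr p → ℂ}
    (hg : ∀ t, p.eval (g t) = p.eval (cz p t)) : g ∈ S0 p := by
  have hp0 : p ≠ 0 := by
    rintro rfl
    simp at hp
  have hl : p.leadingCoeff ≠ 0 := leadingCoeff_ne_zero.2 hp0
  have hinj : Function.Injective (C : ℂ →+* ℂ[X]) := C_injective
  set Q : ℂ[X][X] := C (C p.leadingCoeff⁻¹) * (p.map (C : ℂ →+* ℂ[X]) - C p) with hQ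
  have h1 : (p.map (C : ℂ →+* ℂ[X]) - C p).natDegree = p.natDegree := by
    rw [natDegree_sub_C, natDegree_map_eq_of_injective hinj]
  have h2 : (p.map (C : ℂ →+* ℂ[X]) - C p).leadingCoeff = C p.leadingCoeff := by
    rw [leadingCoeff, h1, coeff_sub, coeff_map, coeff_C, if_neg hp.ne', sub_zero]
    rfl
  have hmon : Q.Monic := by
    rw [Monic, hQ, leadingCoeff_mul, leadingCoeff_C, h2, ← C_mul, inv_mul_cancel₀ hl, C_1]
  refine mem_S0.2 ⟨Q, hmon, ?_⟩
  funext t
  have h3 := hom_eval₂ Q (frz p) (Pi.evalRingHom (fun _ : Tr p => ℂ) t) g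
  have h4 : (eval₂ (frz p) g Q) t = eval₂ ((Pi.evalRingHom (fun _ : Tr p => ℂ) t).comp (frz p))
      (g t) Q := by simpa using h3
  rw [h4, hQ, eval₂_mul, eval₂_sub, eval₂_C, eval₂_C, eval₂_map]
  have h5 : ((Pi.evalRingHom (fun _ : Tr p => ℂ) t).comp (frz p)).comp (C : ℂ →+* ℂ[X]) =
      RingHom.id ℂ := by
    ext x
    show frz p (C x) t = x
    rw [frz_apply, eval_C]
  rw [h5, eval₂_id, hg t]
  have h6 : ((Pi.evalRingHom (fun _ : Tr p => ℂ) t).comp (frz p)) p = p.eval (cz p t) := rfl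
  rw [h6, sub_self, mul_zero]
  rfl

theorem cw_mem {p : ℂ[X]} (hp : 0 < p.natDegree) : cw p ∈ S0 p :=
  coord_mem hp fun t => t.2.1

theorem cu_mem {p : ℂ[X]} (hp : 0 < p.natDegree) : cu p ∈ S0 p :=
  coord_mem hp fun t => t.2.2

/-- the constants -/
noncomputable def cst (p : ℂ[X]) : ℂ →+* S0 p where
  toFun a := ⟨fun _ => a, const_mem p a⟩
  map_one' := rfl
  map_mul' _ _ := rfl
  map_zero' := rfl
  map_add' _ _ := rfl

/-- evaluation of the integral functions at a point -/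
noncomputable def evt {p : ℂ[X]} (t : Tr p) : S0 p →+* ℂ :=
  (Pi.evalRingHom (fun _ : Tr p => ℂ) t).comp (S0 p).subtype

theorem evt_apply {p : ℂ[X]} (t : Tr p) (g : S0 p) : evt t g = g.1 t := rfl

theorem evt_eval {p : ℂ[X]} (t : Tr p) (q : ℂ[X]) (g : S0 p) :
    evt t ((q.map (cst p)).eval g) = q.eval (g.1 t) := by
  have h1 := hom_eval₂ q (cst p) (evt t) g
  have h2 : (evt t).comp (cst p) = RingHom.id ℂ := by
    ext x
    rfl
  rw [eval_map, h1, h2, eval₂_id]
  rfl

/-- **Divided differences of `q` as integral functions**: `D1 = (q w - q z) / (w - z)`,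
`D1' = (q u - q z) / (u - z)` and `D2 = (D1 - D1') / (w - u)`. -/
theorem exists_dd {p : ℂ[X]} (hp : 0 < p.natDegree) (q : ℂ[X]) :
    ∃ D1 D1' D2 : Tr p → ℂ, D1 ∈ S0 p ∧ D1' ∈ S0 p ∧ D2 ∈ S0 p ∧
      (∀ t, q.eval (cw p t) - q.eval (cz p t) = (cw p t - cz p t) * D1 t) ∧
      (∀ t, q.eval (cu p t) - q.eval (cz p t) = (cu p t - cz p t) * D1' t) ∧
      (∀ t, D1 t - D1' t = (cw p t - cu p t) * D2 t) := by
  set z : S0 p := ⟨cz p, cz_mem p⟩ with hz
  set w : S0 p := ⟨cw p, cw_mem hp⟩ with hw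
  set u : S0 p := ⟨cu p, cu_mem hp⟩ with hu
  set P := q.map (cst p) with hP
  obtain ⟨Q1, hQ1⟩ := X_sub_C_dvd_sub_C_eval (a := z) (p := P)
  obtain ⟨d2, hd2⟩ := sub_dvd_eval_sub w u Q1
  have e1 := congrArg (eval w) hQ1
  have e2 := congrArg (eval u) hQ1
  simp only [eval_sub, eval_C, eval_mul, eval_X] at e1 e2
  refine ⟨(Q1.eval w).1, (Q1.eval u).1, d2.1, (Q1.eval w).2, (Q1.eval u).2, d2.2, ?_, ?_, ?_⟩
  · intro t
    have h := congrArg (evt t) e1
    rw [map_sub, map_mul, map_sub, evt_eval, evt_eval] at h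
    exact h
  · intro t
    have h := congrArg (evt t) e2
    rw [map_sub, map_mul, map_sub, evt_eval, evt_eval] at h
    exact h
  · intro t
    have h := congrArg (evt t) hd2
    rw [map_sub, map_mul, map_sub] at h
    exact h

theorem exists_small_notMem {Bad : Set ℂ} (hB : Bad.Finite) {ε : ℝ} (hε : 0 < ε) :
    ∃ a : ℂ, ‖a‖ < ε ∧ a ∉ Bad := by
  have hinf : (Metric.ball (0 : ℂ) ε).Infinite := by
    intro hf
    exact (Metric.isOpen_ball (x := (0 : ℂ)) (ε := ε)).measure_ne_zero (μ := MeasureTheory.volume)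
      ⟨0, Metric.mem_ball_self hε⟩ (hf.measure_zero _)
  obtain ⟨a, ha, hab⟩ := hinf.exists_notMem_finite hB
  exact ⟨a, mem_ball_zero_iff.1 ha, hab⟩

theorem finite_fibre {p : ℂ[X]} (hp : 0 < p.natDegree) (c : ℂ) : {w : ℂ | p.eval w = c}.Finite := by
  have hne : p - C c ≠ 0 := by
    intro h0
    rw [sub_eq_zero.1 h0, natDegree_C] at hp
    exact lt_irrefl _ hp
  refine (Finset.finite_toSet (p - C c).roots.toFinset).subset ?_
  intro w hw
  have hw' : p.eval w = c := hw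
  simp only [Finset.mem_coe, Multiset.mem_toFinset]
  rw [mem_roots hne, IsRoot.def, eval_sub, eval_C, hw', sub_self]

/-- **The choice of the small perturbation of `q`.** -/
theorem choose_ab {p : ℂ[X]} (hp : 1 < p.natDegree) (q : ℂ[X]) {ε : ℝ} (hε : 0 < ε) :
    ∃ a b : ℂ, ‖a‖ < ε ∧ ‖b‖ < ε ∧
      (∀ z, (derivative p).eval z = 0 →
        (derivative (q + C a * X + C b * X ^ 2)).eval z ≠ 0) ∧
      {z : ℂ | ∃ w, w ≠ z ∧ p.eval w = p.eval z ∧
        (q + C a * X + C b * X ^ 2).eval w = (q + C a * X + C b * X ^ 2).eval z}.Finite ∧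
      (∀ z w u, z ≠ w → z ≠ u → w ≠ u → p.eval z = p.eval w → p.eval z = p.eval u →
        (q + C a * X + C b * X ^ 2).eval z = (q + C a * X + C b * X ^ 2).eval w →
        (q + C a * X + C b * X ^ 2).eval z = (q + C a * X + C b * X ^ 2).eval u → False) := by
  have hp0 : 0 < p.natDegree := by omega
  have hp1 : 0 < (derivative p).natDegree := by
    rw [natDegree_derivative]
    omega
  obtain ⟨D1, D1', D2, m1, m1', m2, e1, e1', e2⟩ := exists_dd hp0 q
  -- the choice of `b`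
  obtain ⟨Bb, hBb, hb⟩ := elim m2
  obtain ⟨b, hbε, hbB⟩ := exists_small_notMem (hBb.image (fun x => -x)) hε
  have hbB' : -b ∉ Bb := fun h => hbB ⟨-b, h, neg_neg b⟩
  set Zb : Set ℂ := {z : ℂ | ∃ x : Tr p, x.1.1 = z ∧ D2 x = -b} with hZb
  have hZbf : Zb.Finite := hb _ hbB'
  -- the function whose values are excluded for `-a`
  set g : Tr p → ℂ := fun t => D1 t + b * (cw p t + cz p t) with hg
  have hgm : g ∈ S0 p :=
    (S0 p).add_mem m1 ((S0 p).mul_mem (const_mem p b) ((S0 p).add_mem (cw_mem hp0) (cz_mem p)))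
  obtain ⟨Ba, hBa, ha⟩ := elim hgm
  -- excluded values
  have hX1 : {a : ℂ | ∃ z, (derivative p).eval z = 0 ∧
      (derivative (q + C a * X + C b * X ^ 2)).eval z = 0}.Finite := by
    have h1 := (finite_fibre hp1 0).image
      (fun z => -((derivative q).eval z + b * (2 * z)))
    refine h1.subset ?_
    rintro a ⟨z, hz, hz'⟩
    refine ⟨z, hz, ?_⟩
    simp only [derivative_add, derivative_mul, derivative_C, derivative_X, derivative_X_pow,
      zero_mul, zero_add, mul_one, eval_add, eval_mul, eval_C, eval_X, Nat.cast_ofNat,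
      Nat.add_one_sub_one, pow_one] at hz'
    show -((derivative q).eval z + b * (2 * z)) = a
    have h2 : (eval z (C (2 : ℂ) : ℂ[X])) = 2 := eval_C
    linear_combination -hz'
  have hX2 : {a : ℂ | ∃ z ∈ Zb, ∃ w, p.eval w = p.eval z ∧ z ≠ w ∧
      q.eval w - q.eval z = (w - z) * (-a - b * (w + z))}.Finite := by
    have h1 : (⋃ z ∈ Zb, (fun w => -((q.eval w - q.eval z) / (w - z) + b * (w + z))) ''
        {w | p.eval w = p.eval z}).Finite :=
      hZbf.biUnion fun z _ => (finite_fibre hp0 _).image _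
    refine h1.subset ?_
    rintro a ⟨z, hz, w, hw, hne, h2⟩
    simp only [Set.mem_iUnion]
    refine ⟨z, hz, w, hw, ?_⟩
    have h3 : w - z ≠ 0 := sub_ne_zero.2 (Ne.symm hne)
    show -((q.eval w - q.eval z) / (w - z) + b * (w + z)) = a
    rw [h2, mul_div_cancel_left₀ _ h3]
    ring
  obtain ⟨a, haε, haB⟩ := exists_small_notMem
    ((hX1.union hX2).union (hBa.image (fun x => -x))) hε
  have haB1 : ¬ ∃ z, (derivative p).eval z = 0 ∧
      (derivative (q + C a * X + C b * X ^ 2)).eval z = 0 := fun h => haB (Or.inl (Or.inl h))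
  have haB2 := fun h => haB (Or.inl (Or.inr h))
  have haB3 : -a ∉ Ba := fun h => haB (Or.inr ⟨-a, h, neg_neg a⟩)
  have hQ : ∀ z w : ℂ, (q + C a * X + C b * X ^ 2).eval w = (q + C a * X + C b * X ^ 2).eval z →
      q.eval w - q.eval z = (w - z) * (-a - b * (w + z)) := by
    intro z w h
    simp only [eval_add, eval_mul, eval_C, eval_X, eval_pow] at h
    linear_combination h
  refine ⟨a, b, haε, hbε, fun z hz h0 => haB1 ⟨z, hz, h0⟩, ?_, ?_⟩
  · refine (ha _ haB3).subset ?_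
    rintro z ⟨w, hne, hpw, hqw⟩
    refine ⟨⟨(z, w, z), hpw, rfl⟩, rfl, ?_⟩
    have h1 := e1 ⟨(z, w, z), hpw, rfl⟩
    have h2 := hQ z w hqw
    have h3 : w - z ≠ 0 := sub_ne_zero.2 hne
    have h4 : (w - z) * D1 ⟨(z, w, z), hpw, rfl⟩ = (w - z) * (-a - b * (w + z)) := by
      rw [← h2]
      exact h1.symm
    have h5 := mul_left_cancel₀ h3 h4
    show D1 ⟨(z, w, z), hpw, rfl⟩ + b * (w + z) = -a
    rw [h5]
    ring
  · intro z w u hzw hzu hwu hpw hpu hqw hqu
    set t : Tr p := ⟨(z, w, u), hpw.symm, hpu.symm⟩ with ht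
    have h1 : (w - z) * D1 t = (w - z) * (-a - b * (w + z)) := by
      rw [← hQ z w hqw.symm]
      exact (e1 t).symm
    have h2 : (u - z) * D1' t = (u - z) * (-a - b * (u + z)) := by
      rw [← hQ z u hqu.symm]
      exact (e1' t).symm
    have h3 := mul_left_cancel₀ (sub_ne_zero.2 (Ne.symm hzw)) h1
    have h4 := mul_left_cancel₀ (sub_ne_zero.2 (Ne.symm hzu)) h2
    have h5 : D1 t - D1' t = (w - u) * D2 t := e2 t
    rw [h3, h4] at h5
    have h6 : (w - u) * D2 t = (w - u) * (-b) := by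
      rw [← h5]
      ring
    have h7 := mul_left_cancel₀ (sub_ne_zero.2 hwu) h6
    exact haB2 ⟨z, ⟨t, rfl, h7⟩, w, hpw.symm, hzw, hQ z w hqw.symm⟩

end Pool.Agent.HZ
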