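import Pool.Agent.H.MP_cd3d06_an.L.DBasic

/-! MP_cd3d06_an, module T/PersistT: regular zeros persist under small perturbations of `q` by
`a X + b X ^ 2` and of `p` by a constant -/

open Polynomial Metric Set Filter Topology
open scoped ComplexConjugate

namespace Pool.Agent.HZ

/-- the perturbed harmonic polynomial as a function of the parameters and of `z` -/
private noncomputable def Fp (p q : ℂ[X]) (x : (ℂ × ℂ × ℂ) × ℂ) : ℂ :=
  hp p q x.2 + x.1.2.2 + conj (x.1.1 * x.2 + x.1.2.1 * x.2 ^ 2)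

private theorem Fp_eq (p q : ℂ[X]) (a b c z : ℂ) :
    Fp p q ((a, b, c), z) = hp (p + C c) (q + C a * X + C b * X ^ 2) z := by
  simp only [Fp, hp, eval_add, eval_mul, eval_C, eval_X, eval_pow, map_add]
  ring

private theorem contDiff_Fp (p q : ℂ[X]) : ContDiff ℝ ⊤ (Fp p q) := by
  have h1 : ContDiff ℝ ⊤ (fun x : (ℂ × ℂ × ℂ) × ℂ => hp p q x.2) :=
    (contDiff_hp p q).comp contDiff_snd
  have h2 : ContDiff ℝ ⊤ (fun x : (ℂ × ℂ × ℂ) × ℂ => x.1.2.2) :=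
    contDiff_snd.comp (contDiff_snd.comp contDiff_fst)
  have h3 : ContDiff ℝ ⊤ (fun x : (ℂ × ℂ × ℂ) × ℂ => x.1.1 * x.2 + x.1.2.1 * x.2 ^ 2) := by
    have ha : ContDiff ℝ ⊤ (fun x : (ℂ × ℂ × ℂ) × ℂ => x.1.1) := contDiff_fst.comp contDiff_fst
    have hb : ContDiff ℝ ⊤ (fun x : (ℂ × ℂ × ℂ) × ℂ => x.1.2.1) :=
      contDiff_fst.comp (contDiff_snd.comp contDiff_fst)
    have hz : ContDiff ℝ ⊤ (fun x : (ℂ × ℂ × ℂ) × ℂ => x.2) := contDiff_snd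
    exact (ha.mul hz).add (hb.mul (hz.pow 2))
  exact (h1.add h2).add (Complex.conjCLE.contDiff.comp h3)

private theorem persist_one {p q : ℂ[X]} {x : ℂ} (hx : hp p q x = 0)
    (hreg : ‖(derivative p).eval x‖ ≠ ‖(derivative q).eval x‖) {U : Set ℂ} (hU : U ∈ 𝓝 x) :
    ∀ᶠ t : ℂ × ℂ × ℂ in 𝓝 0, ∃ z ∈ U, Fp p q (t, z) = 0 := by
  set L := fderiv ℝ (Fp p q) (0, x) with hL
  have hF : HasStrictFDerivAt (Fp p q) L (0, x) :=
    (contDiff_Fp p q).contDiffAt.hasStrictFDerivAt (by simp)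
  have hL2 : ∀ v : ℂ, L (0, v) = dh p q x v := by
    intro v
    have h1 : HasFDerivAt (fun z : ℂ => ((0 : ℂ × ℂ × ℂ), z))
        (ContinuousLinearMap.inr ℝ (ℂ × ℂ × ℂ) ℂ) x := hasFDerivAt_prodMk_right 0 x
    have h2 := hF.hasFDerivAt.comp x h1
    have h3 : (Fp p q ∘ fun z : ℂ => ((0 : ℂ × ℂ × ℂ), z)) = hp p q := by
      funext z
      simp [Fp]
    rw [h3] at h2
    have h4 := h2.unique (hasStrictFDerivAt_hp p q x).hasFDerivAt
    have h5 := congrArg (fun M : ℂ →L[ℝ] ℂ => M v) h4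
    simpa using h5
  have hdet : (dh p q x).det ≠ 0 := by
    rw [det_dh, jac]
    intro h0
    apply hreg
    have h1 : ‖(derivative p).eval x‖ ^ 2 = ‖(derivative q).eval x‖ ^ 2 := by linarith
    exact (sq_eq_sq₀ (norm_nonneg _) (norm_nonneg _)).1 h1
  have hsurj : Function.Surjective (dh p q x) := by
    have h1 : IsUnit (LinearMap.det (dh p q x : ℂ →ₗ[ℝ] ℂ)) := by
      rw [isUnit_iff_ne_zero]
      exact hdet
    exact ((Module.End.isUnit_iff _).1 ((LinearMap.isUnit_iff_isUnit_det _).2 h1)).2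
  set M : ((ℂ × ℂ × ℂ) × ℂ) →L[ℝ] ((ℂ × ℂ × ℂ) × ℂ) :=
    (ContinuousLinearMap.fst ℝ (ℂ × ℂ × ℂ) ℂ).prod L with hM
  have hΨ : HasStrictFDerivAt (fun y : (ℂ × ℂ × ℂ) × ℂ => (y.1, Fp p q y)) M (0, x) :=
    hasStrictFDerivAt_fst.prodMk hF
  have hMs : LinearMap.range (M : ((ℂ × ℂ × ℂ) × ℂ) →ₗ[ℝ] ((ℂ × ℂ × ℂ) × ℂ)) = ⊤ := by
    rw [LinearMap.range_eq_top]
    rintro ⟨τ, η⟩
    obtain ⟨v, hv⟩ := hsurj (η - L (τ, 0))
    refine ⟨(τ, v), ?_⟩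
    have h1 : L (τ, v) = L (τ, 0) + L (0, v) := by
      rw [← map_add]
      simp
    show (τ, L (τ, v)) = (τ, η)
    rw [h1, hL2, hv]
    simp
  have hmap := hΨ.map_nhds_eq_of_surj hMs
  have h1 : (univ : Set (ℂ × ℂ × ℂ)) ×ˢ U ∈ 𝓝 ((0 : ℂ × ℂ × ℂ), x) := prod_mem_nhds univ_mem hU
  have h2 := Filter.image_mem_map (m := fun y : (ℂ × ℂ × ℂ) × ℂ => (y.1, Fp p q y)) h1
  rw [hmap] at h2
  have h3 : Fp p q (0, x) = 0 := by simp [Fp, hx]
  rw [h3] at h2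
  have h4 : Tendsto (fun t : ℂ × ℂ × ℂ => (t, (0 : ℂ))) (𝓝 0) (𝓝 (0, 0)) := by
    have : Continuous fun t : ℂ × ℂ × ℂ => (t, (0 : ℂ)) := by fun_prop
    exact this.tendsto 0
  filter_upwards [h4 h2] with t ht
  obtain ⟨⟨t', z⟩, hz, hz2⟩ := ht
  simp only [Prod.mk.injEq] at hz2
  obtain ⟨rfl, hz3⟩ := hz2
  exact ⟨z, hz.2, hz3⟩

/-- regular zeros persist -/
theorem persist_abc {p q : ℂ[X]} (hreg : Reg p q) (hfin : {z | hp p q z = 0}.Finite) :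
    ∃ ε > 0, ∀ a b c : ℂ, ‖a‖ < ε → ‖b‖ < ε → ‖c‖ < ε →
      {z | hp (p + C c) (q + C a * X + C b * X ^ 2) z = 0}.Finite →
      {z | hp p q z = 0}.ncard ≤
        {z | hp (p + C c) (q + C a * X + C b * X ^ 2) z = 0}.ncard := by
  set Z := {z | hp p q z = 0} with hZ
  obtain ⟨U, hU1, hU2⟩ := hfin.t2_separation
  have hev : ∀ᶠ t : ℂ × ℂ × ℂ in 𝓝 0, ∀ x ∈ Z, ∃ z ∈ U x, Fp p q (t, z) = 0 := by
    rw [eventually_all_finite hfin]
    intro x hx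
    exact persist_one hx (hreg x hx) ((hU1 x).2.mem_nhds (hU1 x).1)
  obtain ⟨ε, hε, h⟩ := Metric.eventually_nhds_iff_ball.1 hev
  refine ⟨ε, hε, fun a b c ha hb hc hf => ?_⟩
  have hmem : (a, b, c) ∈ ball (0 : ℂ × ℂ × ℂ) ε := by
    rw [mem_ball_zero_iff, Prod.norm_def, Prod.norm_def]
    exact max_lt ha (max_lt hb hc)
  have h1 := h _ hmem
  choose! f hf1 hf2 using h1
  refine ncard_le_ncard_of_injOn f ?_ ?_ hf
  · intro x hx
    have := hf2 x hx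
    rw [Fp_eq] at this
    exact this
  · intro x hx y hy hxy
    by_contra hne
    exact Set.disjoint_left.1 (hU2 hx hy hne) (hf1 x hx) (by rw [hxy]; exact hf1 y hy)

end Pool.Agent.HZ
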