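import Pool.Agent.H.MP_cd3d06_an.L.DBasic

/-! MP_cd3d06_an, module T/PreGen: the conditions on `(p, q)` before the rotation step -/

open Polynomial
open scoped ComplexConjugate

namespace Pool.Agent.HZ

/-- the generic conditions that do not change (or stay open) under the rotation
`(e^{iθ} p, e^{-iθ} q)` -/
structure PreGen (p q : ℂ[X]) : Prop where
  d1 : 1 ≤ q.natDegree
  d2 : q.natDegree < p.natDegree
  reg : Reg p q
  cp : ∀ z, (derivative p).eval z = 0 → (derivative q).eval z ≠ 0
  nodes : {z : ℂ | ∃ w, w ≠ z ∧ p.eval w = p.eval z ∧ q.eval w = q.eval z}.Finite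
  triple : ∀ z w u, z ≠ w → z ≠ u → w ≠ u → p.eval z = p.eval w → p.eval z = p.eval u →
    q.eval z = q.eval w → q.eval z = q.eval u → False
  nodecoll : ∀ z w v, z ≠ w → p.eval w = p.eval z → q.eval w = q.eval z →
    p.eval z + conj (q.eval v) = 0 → p.eval v + conj (q.eval z) = 0 → False
  branch : ∀ z, (derivative (p - q)).eval z = 0 → ((p - q).eval z).im ≠ 0

end Pool.Agent.HZ
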