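import Pool.Agent.H.MP_cd3d06_an.T.SharpRed
import Pool.Agent.H.MP_cd3d06_an.T.PreGen
import Pool.Agent.H.MP_cd3d06_an.T.Elim
import Pool.Agent.H.MP_cd3d06_an.T.PersistT

/-! MP_cd3d06_an, module T/Choose: every harmonic polynomial can be replaced by one with `PreGen`,
of the same degrees and with at least as many zeros -/

open Polynomial Metric Set Filter Topology MeasureTheory
open scoped ComplexConjugate

namespace Pool.Agent.HZ

/-- the zero set is finite -/
theorem hp_finite {p q : ℂ[X]} (h1 : 1 ≤ q.natDegree) (h2 : q.natDegree < p.natDegree) :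
    {z | hp p q z = 0}.Finite :=
  (Pool.Agent.H.MP_cd3d06_an.upper_one (p := p) (q := q) rfl rfl h1 h2).1

/-- Sard: almost every translation makes all zeros regular -/
theorem null_not_reg (p q : ℂ[X]) : volume {c : ℂ | ¬ Reg (p + C c) q} = 0 := by
  have h0 : volume (hp p q '' {z | ‖(derivative p).eval z‖ = ‖(derivative q).eval z‖}) = 0 := by
    apply addHaar_image_eq_zero_of_det_fderivWithin_eq_zero (μ := volume) (f' := dh p q)
    · intro z _
      exact (hasStrictFDerivAt_hp p q z).hasFDerivAt.hasFDerivWithinAt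
    · intro z hz
      rw [det_dh, jac]
      have : ‖(derivative p).eval z‖ = ‖(derivative q).eval z‖ := hz
      rw [this, sub_self]
  have h1 : volume (-(hp p q '' {z | ‖(derivative p).eval z‖ = ‖(derivative q).eval z‖})) = 0 := by
    rw [Measure.measure_neg]
    exact h0
  refine measure_mono_null ?_ h1
  intro c hc
  have hc' : ¬ Reg (p + C c) q := hc
  rw [Reg] at hc'
  push Not at hc'
  obtain ⟨z, hz, hz2⟩ := hc'
  rw [derivative_add, derivative_C, add_zero] at hz2
  rw [hp_add_const] at hz
  rw [Set.mem_neg]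
  exact ⟨z, hz2, by linear_combination hz⟩

/-- a small `c` outside a null set, a finite set and finitely many horizontal lines -/
theorem exists_small_c {N B : Set ℂ} {F : Set ℝ} (hN : volume N = 0) (hB : B.Finite)
    (hF : F.Finite) {ε : ℝ} (hε : 0 < ε) :
    ∃ c : ℂ, ‖c‖ < ε ∧ c ∉ N ∧ c ∉ B ∧ c.im ∉ F := by
  set W : Set ℂ := ball 0 ε ∩ {c | c.im ∉ F} with hW
  have hWo : IsOpen W := isOpen_ball.inter (hF.isClosed.isOpen_compl.preimage Complex.continuous_im)
  have hWne : W.Nonempty := by
    have hinf : (Ioo (0 : ℝ) ε).Infinite := Ioo_infinite hε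
    obtain ⟨t, ht, htF⟩ := hinf.exists_notMem_finite hF
    refine ⟨(t : ℂ) * Complex.I, ?_, ?_⟩
    · rw [mem_ball_zero_iff, norm_mul, Complex.norm_I, mul_one, Complex.norm_real,
        Real.norm_eq_abs, abs_of_pos ht.1]
      exact ht.2
    · simpa using htF
  have hpos := hWo.measure_pos volume hWne
  have hnull : volume (N ∪ B) = 0 := measure_union_null hN (hB.measure_zero _)
  have hns : ¬ W ⊆ N ∪ B := by
    intro h
    have := measure_mono_null h hnull
    rw [this] at hpos
    exact lt_irrefl _ hpos
  obtain ⟨c, hc, hcn⟩ := Set.not_subset.1 hns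
  exact ⟨c, mem_ball_zero_iff.1 hc.1, fun h => hcn (Or.inl h), fun h => hcn (Or.inr h), hc.2⟩

/-- the last step: the choice of the constant -/
private theorem choose_c {p q : ℂ[X]} (h1 : 1 ≤ q.natDegree) (h2 : q.natDegree < p.natDegree)
    (hcp : ∀ z, (derivative p).eval z = 0 → (derivative q).eval z ≠ 0)
    (hn : {z : ℂ | ∃ w, w ≠ z ∧ p.eval w = p.eval z ∧ q.eval w = q.eval z}.Finite)
    (ht : ∀ z w u, z ≠ w → z ≠ u → w ≠ u → p.eval z = p.eval w → p.eval z = p.eval u →
      q.eval z = q.eval w → q.eval z = q.eval u → False) {ε : ℝ} (hε : 0 < ε) :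
    ∃ c : ℂ, ‖c‖ < ε ∧ PreGen (p + C c) q := by
  set Nd := {z : ℂ | ∃ w, w ≠ z ∧ p.eval w = p.eval z ∧ q.eval w = q.eval z} with hNd
  -- excluded values of `c`: nodes in collisions
  have hB : {c : ℂ | ∃ z ∈ Nd, ∃ v, p.eval z + c + conj (q.eval v) = 0 ∧
      p.eval v + c + conj (q.eval z) = 0}.Finite := by
    have h3 : (⋃ z ∈ Nd, (fun v => -(p.eval z + conj (q.eval v))) ''
        {v | hp (p + C (-(p.eval z - conj (q.eval z)))) (-q) v = 0}).Finite := by
      refine hn.biUnion fun z _ => (hp_finite ?_ ?_).image _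
      · rw [natDegree_neg]
        exact h1
      · rw [natDegree_neg, natDegree_add_C]
        exact h2
    refine h3.subset ?_
    rintro c ⟨z, hz, v, e1, e2⟩
    simp only [mem_iUnion]
    refine ⟨z, hz, v, ?_, ?_⟩
    · show hp (p + C (-(p.eval z - conj (q.eval z)))) (-q) v = 0
      rw [hp_add_const, hp, eval_neg, map_neg]
      linear_combination e2 - e1
    · show -(p.eval z + conj (q.eval v)) = c
      linear_combination -e1
  -- excluded imaginary parts: branch points over the real axis
  have hd : 0 < (derivative (p - q)).natDegree ∨ (∀ z, (derivative (p - q)).eval z ≠ 0) := by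
    have h3 : (p - q).natDegree = p.natDegree := natDegree_sub_eq_left_of_natDegree_lt h2
    left
    rw [natDegree_derivative, h3]
    omega
  have hcr : {z : ℂ | (derivative (p - q)).eval z = 0}.Finite := by
    rcases hd with hd | hd
    · exact finite_fibre hd 0
    · convert Set.finite_empty (α := ℂ)
      ext z
      simpa using hd z
  have hF : ((fun z => -((p - q).eval z).im) '' {z : ℂ | (derivative (p - q)).eval z = 0}).Finite :=
    hcr.image _
  obtain ⟨c, hcε, hcN, hcB, hcF⟩ := exists_small_c (null_not_reg p q) hB hF hε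
  refine ⟨c, hcε, ?_⟩
  have hev : ∀ z, (p + C c).eval z = p.eval z + c := fun z => by rw [eval_add, eval_C]
  exact
    { d1 := h1
      d2 := by rw [natDegree_add_C]; exact h2
      reg := by
        by_contra h
        exact hcN h
      cp := by
        intro z hz
        rw [derivative_add, derivative_C, add_zero] at hz
        exact hcp z hz
      nodes := by
        have : {z : ℂ | ∃ w, w ≠ z ∧ (p + C c).eval w = (p + C c).eval z ∧
            q.eval w = q.eval z} = Nd := by
          ext z
          simp only [hev, add_left_inj, hNd]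
        rw [this]
        exact hn
      triple := by
        intro z w u a1 a2 a3 a4 a5 a6 a7
        rw [hev, hev, add_left_inj] at a4 a5
        exact ht z w u a1 a2 a3 a4 a5 a6 a7
      nodecoll := by
        intro z w v a1 a2 a3 a4 a5
        rw [hev, hev, add_left_inj] at a2
        rw [hev] at a4 a5
        exact hcB ⟨z, ⟨w, a1.symm, a2, a3⟩, v, a4, a5⟩
      branch := by
        intro z hz h0
        have e1 : p + C c - q = (p - q) + C c := by ring
        rw [e1, derivative_add, derivative_C, add_zero] at hz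
        rw [e1, eval_add, eval_C, Complex.add_im] at h0
        exact hcF ⟨z, hz, by
          show -((p - q).eval z).im = c.im
          linarith⟩ }

theorem natDegree_pert {q : ℂ[X]} (hq : 2 ≤ q.natDegree) {a b : ℂ} (hb : ‖b‖ < ‖q.leadingCoeff‖) :
    (q + C a * X + C b * X ^ 2).natDegree = q.natDegree := by
  apply natDegree_eq_of_le_of_coeff_ne_zero
  · refine (natDegree_add_le _ _).trans (max_le ((natDegree_add_le _ _).trans (max_le le_rfl ?_)) ?_)
    · exact (natDegree_C_mul_le a X).trans (by rw [natDegree_X]; omega)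
    · exact (natDegree_C_mul_X_pow_le b 2).trans hq
  · have h1 : q.natDegree ≠ 1 := by omega
    rw [coeff_add, coeff_add, coeff_C_mul, coeff_C_mul, coeff_X, coeff_X_pow, if_neg (Ne.symm h1)]
    by_cases h2 : q.natDegree = 2
    · rw [if_pos h2, mul_zero, add_zero, mul_one]
      intro h3
      have h4 : b = -q.leadingCoeff := by
        rw [leadingCoeff]
        linear_combination h3
      rw [h4, norm_neg] at hb
      exact lt_irrefl _ hb
    · rw [if_neg h2, mul_zero, mul_zero, add_zero, add_zero]
      have h3 : q ≠ 0 := by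
        rintro rfl
        simp at hq
      exact leadingCoeff_ne_zero.2 h3

/-- **Part E up to the rotation.** -/
theorem exists_preGen {p q : ℂ[X]} (h1 : 1 ≤ q.natDegree) (h2 : q.natDegree < p.natDegree) :
    ∃ P Q : ℂ[X], P.natDegree = p.natDegree ∧ Q.natDegree = q.natDegree ∧ PreGen P Q ∧
      {z | hp p q z = 0}.ncard ≤ {z | hp P Q z = 0}.ncard := by
  obtain ⟨c1, -, hreg, hn1⟩ := sharp_reduction h2 (hp_finite h1 h2) (ε := 1) one_pos
  set p1 := p + C c1 with hp1
  have hd1 : p1.natDegree = p.natDegree := natDegree_add_C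
  have h2' : q.natDegree < p1.natDegree := by rw [hd1]; exact h2
  obtain ⟨ε, hε, hper⟩ := persist_abc hreg (hp_finite h1 h2')
  -- the choice of `a`, `b`
  obtain ⟨a, b, ha, hb, hdeg, hcp, hnf, htr⟩ : ∃ a b : ℂ, ‖a‖ < ε ∧ ‖b‖ < ε ∧
      (q + C a * X + C b * X ^ 2).natDegree = q.natDegree ∧
      (∀ z, (derivative p1).eval z = 0 →
        (derivative (q + C a * X + C b * X ^ 2)).eval z ≠ 0) ∧
      {z : ℂ | ∃ w, w ≠ z ∧ p1.eval w = p1.eval z ∧
        (q + C a * X + C b * X ^ 2).eval w = (q + C a * X + C b * X ^ 2).eval z}.Finite ∧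
      (∀ z w u, z ≠ w → z ≠ u → w ≠ u → p1.eval z = p1.eval w → p1.eval z = p1.eval u →
        (q + C a * X + C b * X ^ 2).eval z = (q + C a * X + C b * X ^ 2).eval w →
        (q + C a * X + C b * X ^ 2).eval z = (q + C a * X + C b * X ^ 2).eval u → False) := by
    rcases Nat.lt_or_ge q.natDegree 2 with hm | hm
    · -- degree one: `q` is injective
      have hm1 : q.natDegree = 1 := by omega
      have hq0 : q + C 0 * X + C 0 * X ^ 2 = q := by simp
      have hqe : q = C (q.coeff 1) * X + C (q.coeff 0) :=
        eq_X_add_C_of_natDegree_le_one (by omega)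
      have hq1 : q.coeff 1 ≠ 0 := by
        rw [← hm1]
        apply leadingCoeff_ne_zero.2
        rintro rfl
        simp at hm1
      have hinj : ∀ z w : ℂ, q.eval z = q.eval w → z = w := by
        intro z w h
        rw [hqe] at h
        simp only [eval_add, eval_mul, eval_C, eval_X] at h
        have h3 : q.coeff 1 * z = q.coeff 1 * w := by linear_combination h
        exact mul_left_cancel₀ hq1 h3
      refine ⟨0, 0, by simpa using hε, by simpa using hε, by rw [hq0], ?_, ?_, ?_⟩
      · intro z _
        rw [hq0, hqe]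
        simpa using hq1
      · rw [hq0]
        convert Set.finite_empty (α := ℂ)
        ext z
        simp only [mem_empty_iff_false, iff_false]
        rintro ⟨w, hne, -, h⟩
        exact hne (hinj _ _ h)
      · intro z w u hzw _ _ _ _ h _
        rw [hq0] at h
        exact hzw (hinj _ _ h)
    · have hq0 : q ≠ 0 := by
        rintro rfl
        simp at hm
      have hl : 0 < ‖q.leadingCoeff‖ := norm_pos_iff.2 (leadingCoeff_ne_zero.2 hq0)
      obtain ⟨a, b, ha, hb, k1, k2, k3⟩ := choose_ab (p := p1) (by omega) q (lt_min hε hl)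
      exact ⟨a, b, ha.trans_le (min_le_left _ _), hb.trans_le (min_le_left _ _),
        natDegree_pert hm (hb.trans_le (min_le_right _ _)), k1, k2, k3⟩
  set q2 := q + C a * X + C b * X ^ 2 with hq2
  obtain ⟨c, hc, hpg⟩ := choose_c (p := p1) (q := q2) (by rw [hdeg]; exact h1)
    (by rw [hdeg]; exact h2') hcp hnf htr hε
  refine ⟨p1 + C c, q2, by rw [natDegree_add_C, hd1], hdeg, hpg, hn1.trans ?_⟩
  exact hper a b c ha hb hc (hp_finite hpg.d1 hpg.d2)

end Pool.Agent.HZ
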