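import Pool.Agent.H.MP_cd3d06_an.L.Sard
import Pool.Agent.H.MP_cd3d06_an.UpperGeneral

/-! MP_cd3d06_an, module T/SharpRed: sharp reduction to harmonic polynomials all of whose zeros are
regular: the number of zeros does not go down. -/

open Polynomial Metric Set Filter Topology MeasureTheory
open scoped ComplexConjugate

namespace Pool.Agent.HZ

/-- the polynomial whose imaginary part is the imaginary part of `conj u * h` -/
private noncomputable def fu (p q : ℂ[X]) (u : ℂ) : ℂ[X] := C (conj u) * p - C u * q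

private theorem fu_im (p q : ℂ[X]) (u z : ℂ) :
    ((fu p q u).eval z).im = (conj u * hp p q z).im := by
  simp only [fu, hp, eval_sub, eval_mul, eval_C, Complex.sub_im, Complex.mul_im, Complex.add_re,
    Complex.add_im, Complex.conj_re, Complex.conj_im]
  ring

private theorem fu_natDegree {p q : ℂ[X]} (hpq : q.natDegree < p.natDegree) {u : ℂ} (hu : u ≠ 0) :
    (fu p q u).natDegree = p.natDegree := by
  have hu' : conj u ≠ 0 := by simpa using hu
  have h1 : (C (conj u) * p).natDegree = p.natDegree := natDegree_C_mul hu'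
  have h2 : (C u * q).natDegree < (C (conj u) * p).natDegree := by
    rw [h1, natDegree_C_mul hu]
    exact hpq
  rw [fu, natDegree_sub_eq_left_of_natDegree_lt h2, h1]

/-- the local statement in one direction -/
private theorem local_one {p q : ℂ[X]} {x u : ℂ} (s : ℝ) (hs : s = 1 ∨ s = -1)
    (hf : 0 < (fu p q u).natDegree) (hx : hp p q x = 0) {r δ : ℝ} (hr : 0 < r)
    (hsph : ∀ z ∈ sphere x r, δ ≤ ‖hp p q z‖) {ρ : ℝ} (hρ : 0 < ρ) (hρδ : ρ < δ) :
    ∃ z ∈ closedBall x r, ((fu p q u).eval z).im = 0 ∧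
      0 ≤ s * (((fu p q u).eval z).re - ((fu p q u).eval x).re) ∧ ‖hp p q z‖ = ρ := by
  set f := fu p q u with hfdef
  by_contra hcon
  push Not at hcon
  have hcont : Continuous (hp p q) := (contDiff_hp p q).continuous
  have hfc : Continuous fun z : ℂ => f.eval z := f.continuous
  have hfx : (f.eval x).im = 0 := by rw [hfdef, fu_im, hx]; simp
  -- the compact set
  set A : Set ℂ := {z | z ∈ closedBall x r ∧ (f.eval z).im = 0 ∧
    0 ≤ s * ((f.eval z).re - (f.eval x).re) ∧ ‖hp p q z‖ ≤ ρ} with hA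
  have hAc : IsCompact A := by
    have h1 : IsClosed {z : ℂ | (f.eval z).im = 0 ∧
      0 ≤ s * ((f.eval z).re - (f.eval x).re) ∧ ‖hp p q z‖ ≤ ρ} := by
      refine IsClosed.inter (isClosed_eq (Complex.continuous_im.comp hfc) continuous_const) ?_
      refine IsClosed.inter (isClosed_le continuous_const
        (continuous_const.mul ((Complex.continuous_re.comp hfc).sub continuous_const))) ?_
      exact isClosed_le hcont.norm continuous_const
    exact (isCompact_closedBall x r).inter_right h1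
  have hxA : x ∈ A := ⟨mem_closedBall_self hr.le, hfx, by simp, by rw [hx, norm_zero]; exact hρ.le⟩
  obtain ⟨w, hwA, hwmax⟩ := hAc.exists_isMaxOn ⟨x, hxA⟩
    (f := fun z => s * (f.eval z).re)
    ((continuous_const.mul (Complex.continuous_re.comp hfc)).continuousOn)
  -- `w` lies in an open set whose image is open
  set V : Set ℂ := ball x r ∩ {z | ‖hp p q z‖ < ρ} with hV
  have hVo : IsOpen V := isOpen_ball.inter (isOpen_lt hcont.norm continuous_const)
  have hwV : w ∈ V := by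
    have h1 : ‖hp p q w‖ < ρ := lt_of_le_of_ne hwA.2.2.2 (hcon w hwA.1 hwA.2.1 hwA.2.2.1)
    refine ⟨?_, h1⟩
    rcases lt_or_eq_of_le (mem_closedBall.1 hwA.1) with h2 | h2
    · exact mem_ball.2 h2
    · have := hsph w (mem_sphere.2 h2)
      linarith
  have hopen : IsOpen ((fun z : ℂ => f.eval z) '' V) := by
    have hg : AnalyticOnNhd ℂ (fun z : ℂ => f.eval z) univ := by
      intro z _
      exact (f.differentiable.analyticAt z)
    rcases hg.is_constant_or_isOpen isPreconnected_univ with ⟨c, hc⟩ | h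
    · exfalso
      have h1 : f = C c := by
        apply Polynomial.funext
        intro z
        rw [eval_C]
        exact hc z (mem_univ _)
      rw [h1, natDegree_C] at hf
      exact lt_irrefl _ hf
    · exact h V (subset_univ _) hVo
  have hnh : (fun z : ℂ => f.eval z) '' V ∈ 𝓝 (f.eval w) := hopen.mem_nhds ⟨w, hwV, rfl⟩
  have ht : Tendsto (fun t : ℝ => f.eval w + ((s * t : ℝ) : ℂ)) (𝓝[>] 0) (𝓝 (f.eval w)) := by
    have h1 : Continuous fun t : ℝ => f.eval w + ((s * t : ℝ) : ℂ) := by fun_prop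
    have h2 := h1.tendsto 0
    simp only [mul_zero, Complex.ofReal_zero, add_zero] at h2
    exact h2.mono_left nhdsWithin_le_nhds
  obtain ⟨t, htV, ht0⟩ := ((ht.eventually hnh).and self_mem_nhdsWithin).exists
  have ht0' : 0 < t := ht0
  obtain ⟨v, hvV, hv⟩ := htV
  have hv' : f.eval v = f.eval w + ((s * t : ℝ) : ℂ) := hv
  have hss : s * s = 1 := by rcases hs with h | h <;> rw [h] <;> norm_num
  have hre : (f.eval v).re = (f.eval w).re + s * t := by rw [hv']; simp
  have him : (f.eval v).im = 0 := by rw [hv']; simp [hwA.2.1]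
  have hvA : v ∈ A := by
    refine ⟨ball_subset_closedBall hvV.1, him, ?_, hvV.2.le⟩
    rw [hre]
    have := hwA.2.2.1
    nlinarith
  have h3 := hwmax hvA
  simp only [mem_ofPred_eq] at h3
  rw [hre] at h3
  nlinarith

/-- the local statement: two solutions near an isolated zero -/
private theorem local_two {p q : ℂ[X]} (hpq : q.natDegree < p.natDegree) {x u : ℂ} (hu : u ≠ 0)
    (hx : hp p q x = 0) (hiso : ∀ᶠ z in 𝓝[≠] x, hp p q z ≠ 0) {U : Set ℂ} (hU : U ∈ 𝓝 x) :
    ∃ δ > 0, ∀ ε : ℝ, 0 < ε → ε < δ → ∃ z₁ ∈ U, ∃ z₂ ∈ U, z₁ ≠ z₂ ∧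
      (hp p q z₁ = ε * u ∨ hp p q z₁ = -(ε * u)) ∧
      (hp p q z₂ = ε * u ∨ hp p q z₂ = -(ε * u)) := by
  set f := fu p q u with hfdef
  have hdeg : 0 < f.natDegree := by
    rw [hfdef, fu_natDegree hpq hu]
    omega
  have hcont : Continuous (hp p q) := (contDiff_hp p q).continuous
  -- `f` takes the value `f x` near `x` only at `x`
  have hfiso : ∀ᶠ z in 𝓝[≠] x, f.eval z ≠ f.eval x := by
    have hne : f - C (f.eval x) ≠ 0 := by
      intro h0
      have h1 : f = C (f.eval x) := sub_eq_zero.1 h0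
      rw [h1, natDegree_C] at hdeg
      exact lt_irrefl _ hdeg
    have hfin : {z : ℂ | f.eval z = f.eval x}.Finite := by
      refine ((f - C (f.eval x)).roots.toFinset.finite_toSet).subset ?_
      intro z hz
      have hz' : f.eval z = f.eval x := hz
      simp only [Finset.mem_coe, Multiset.mem_toFinset]
      rw [mem_roots hne, IsRoot.def, eval_sub, eval_C, hz', sub_self]
    have h1 : ({z : ℂ | f.eval z = f.eval x} \ {x})ᶜ ∈ 𝓝 x :=
      (hfin.subset sdiff_subset).isClosed.isOpen_compl.mem_nhds (by simp)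
    rw [eventually_nhdsWithin_iff]
    filter_upwards [h1] with z hz hne h0
    exact hz ⟨h0, hne⟩
  obtain ⟨r, hr, hrU⟩ : ∃ r > 0, ∀ z ∈ closedBall x r, z ∈ U ∧
      (z ≠ x → hp p q z ≠ 0) ∧ (z ≠ x → f.eval z ≠ f.eval x) := by
    have h1 : ∀ᶠ z in 𝓝 x, z ∈ U ∧ (z ≠ x → hp p q z ≠ 0) ∧ (z ≠ x → f.eval z ≠ f.eval x) :=
      Filter.Eventually.and hU
        ((eventually_nhdsWithin_iff.1 hiso).and (eventually_nhdsWithin_iff.1 hfiso))
    obtain ⟨r, hr, h⟩ := Metric.nhds_basis_closedBall.eventually_iff.1 h1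
    exact ⟨r, hr, fun z hz => h hz⟩
  obtain ⟨δ, hδ, hsph⟩ : ∃ δ > 0, ∀ z ∈ sphere x r, δ ≤ ‖hp p q z‖ := by
    have hne : (sphere x r).Nonempty := NormedSpace.sphere_nonempty.2 hr.le
    obtain ⟨w, hw, hmin⟩ := (isCompact_sphere x r).exists_isMinOn hne hcont.norm.continuousOn
    refine ⟨‖hp p q w‖, ?_, fun z hz => hmin hz⟩
    have hwx : w ≠ x := by
      rintro rfl
      rw [mem_sphere, dist_self] at hw
      exact hr.ne hw
    exact norm_pos_iff.2 ((hrU w (sphere_subset_closedBall hw)).2.1 hwx)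
  have hun : 0 < ‖u‖ := norm_pos_iff.2 hu
  refine ⟨δ / ‖u‖, by positivity, fun ε hε hε2 => ?_⟩
  have hρ : 0 < ε * ‖u‖ := by positivity
  have hρδ : ε * ‖u‖ < δ := (lt_div_iff₀ hun).1 hε2
  obtain ⟨z₁, hz₁, him₁, hs₁, hn₁⟩ := local_one (u := u) 1 (Or.inl rfl) hdeg hx hr hsph hρ hρδ
  obtain ⟨z₂, hz₂, him₂, hs₂, hn₂⟩ := local_one (u := u) (-1) (Or.inr rfl) hdeg hx hr hsph hρ hρδ
  rw [← hfdef] at him₁ him₂ hs₁ hs₂
  have hval : ∀ z, (f.eval z).im = 0 → ‖hp p q z‖ = ε * ‖u‖ →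
      (hp p q z = ε * u ∨ hp p q z = -(ε * u)) := by
    intro z h1 h2
    rw [hfdef, fu_im] at h1
    set t := (conj u * hp p q z).re with ht
    have h3 : conj u * hp p q z = (t : ℂ) := Complex.ext (by simp [ht]) (by simp [h1])
    have h4 : |t| = ε * ‖u‖ * ‖u‖ := by
      have h5 := congrArg norm h3
      rw [norm_mul, RCLike.norm_conj, h2, Complex.norm_real, Real.norm_eq_abs] at h5
      linarith
    have h6 : (u : ℂ) * conj u = ((‖u‖ * ‖u‖ : ℝ) : ℂ) := by
      rw [Complex.mul_conj, Complex.normSq_eq_norm_sq, sq]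
    have hcu : conj u ≠ 0 := by simpa using hu
    have h7 : 0 ≤ ε * ‖u‖ * ‖u‖ := by positivity
    rcases (abs_eq h7).1 h4 with h8 | h8
    · left
      apply mul_left_cancel₀ hcu
      rw [h3, h8]
      have : (conj u : ℂ) * (ε * u) = ε * (u * conj u) := by ring
      rw [this, h6]
      push_cast
      ring
    · right
      apply mul_left_cancel₀ hcu
      rw [h3, h8]
      have : (conj u : ℂ) * (-(ε * u)) = -(ε * (u * conj u)) := by ring
      rw [this, h6]
      push_cast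
      ring
  refine ⟨z₁, (hrU z₁ hz₁).1, z₂, (hrU z₂ hz₂).1, ?_, hval z₁ him₁ hn₁, hval z₂ him₂ hn₂⟩
  intro h12
  rw [← h12] at hs₂ him₂
  have hfx : (f.eval x).im = 0 := by rw [hfdef, fu_im, hx]; simp
  have h1 : f.eval z₁ = f.eval x := by
    apply Complex.ext
    · linarith
    · rw [him₁, hfx]
  by_cases h2 : z₁ = x
  · rw [h2, hx, norm_zero] at hn₁
    linarith
  · exact (hrU z₁ hz₁).2.2 h2 h1

theorem hp_add_const (p q : ℂ[X]) (c z : ℂ) : hp (p + C c) q z = hp p q z + c := by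
  simp only [hp, eval_add, eval_C]
  ring

/-- **Sharp reduction**: a small translation of `p` makes all zeros regular and does not lower their
number. -/
theorem sharp_reduction {p q : ℂ[X]} (hpq : q.natDegree < p.natDegree)
    (hfin : {z | hp p q z = 0}.Finite) {ε : ℝ} (hε : 0 < ε) :
    ∃ c : ℂ, ‖c‖ < ε ∧ Reg (p + C c) q ∧
      {z | hp p q z = 0}.ncard ≤ {z | hp (p + C c) q z = 0}.ncard := by
  set Z := {z | hp p q z = 0} with hZ
  obtain ⟨u, hu0, -, hur⟩ := exists_dir p q (F := ∅) Set.finite_empty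
  obtain ⟨U, hU1, hU2⟩ := hfin.t2_separation
  have hiso : ∀ x, ∀ᶠ z in 𝓝[≠] x, hp p q z ≠ 0 := by
    intro x
    have h1 : (Z \ {x})ᶜ ∈ 𝓝 x := (hfin.subset sdiff_subset).isClosed.isOpen_compl.mem_nhds
      (by simp)
    rw [eventually_nhdsWithin_iff]
    filter_upwards [h1] with z hz hne h0
    exact hz ⟨h0, hne⟩
  have hun : 0 < ‖u‖ := norm_pos_iff.2 hu0
  have hev : ∀ᶠ e : ℝ in 𝓝[>] 0, (∀ x ∈ Z, ∃ z₁ ∈ U x, ∃ z₂ ∈ U x, z₁ ≠ z₂ ∧
      (hp p q z₁ = e * u ∨ hp p q z₁ = -(e * u)) ∧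
      (hp p q z₂ = e * u ∨ hp p q z₂ = -(e * u))) := by
    rw [eventually_all_finite hfin]
    intro x hx
    obtain ⟨δ, hδ, h⟩ := local_two hpq hu0 hx (hiso x) ((hU1 x).2.mem_nhds (hU1 x).1)
    filter_upwards [Ioo_mem_nhdsGT hδ] with e he
    exact h e he.1 he.2
  obtain ⟨δ, hδ, hδ'⟩ := mem_nhdsGT_iff_exists_Ioo_subset.1 hev
  have hδ0 : (0 : ℝ) < δ := hδ
  obtain ⟨e, he0, he1, he2⟩ := hur (min δ (ε / ‖u‖)) (lt_min hδ0 (by positivity))
  have he3 : e < δ := he1.trans_le (min_le_left _ _)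
  have he4 : e * ‖u‖ < ε := (lt_div_iff₀ hun).1 (he1.trans_le (min_le_right _ _))
  have he5 := hδ' ⟨he0, he3⟩
  simp only [mem_ofPred_eq] at he5
  choose! z₁ hz₁ z₂ hz₂ hne h₁ h₂ using he5
  -- the two fibres
  have hz : ∀ c z : ℂ, hp (p + C (-c)) q z = 0 ↔ hp p q z = c := by
    intro c z
    rw [hp_add_const, ← sub_eq_add_neg, sub_eq_zero]
  have hreg : ∀ c : ℂ, (c = e * u ∨ c = -(e * u)) → Reg (p + C (-c)) q := by
    intro c hc z h0
    rw [derivative_add, derivative_C, add_zero]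
    apply he2 z
    rcases hc with rfl | rfl
    · exact Or.inl ((hz _ z).1 h0)
    · exact Or.inr ((hz _ z).1 h0)
  have hf : ∀ c : ℂ, (c = e * u ∨ c = -(e * u)) → {z | hp (p + C (-c)) q z = 0}.Finite :=
    fun c hc => finite_zeros_of_reg (by rw [natDegree_add_C]; exact hpq) (hreg c hc)
  set S₁ := {z | hp (p + C (-(e * u))) q z = 0} with hS₁
  set S₂ := {z | hp (p + C (-(-(e * u)))) q z = 0} with hS₂
  have hf₁ : S₁.Finite := hf _ (Or.inl rfl)
  have hf₂ : S₂.Finite := hf _ (Or.inr rfl)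
  have hmem : ∀ z : ℂ, (hp p q z = e * u ∨ hp p q z = -(e * u)) → z ∈ S₁ ∪ S₂ := by
    rintro z (h | h)
    · exact Or.inl ((hz _ z).2 h)
    · exact Or.inr ((hz _ z).2 h)
  have hZ1 : (z₁ '' Z).ncard = Z.ncard := by
    apply Set.InjOn.ncard_image
    intro x hx y hy hxy
    by_contra hne'
    exact Set.disjoint_left.1 (hU2 hx hy hne') (hz₁ x hx) (by rw [hxy]; exact hz₁ y hy)
  have hZ2 : (z₂ '' Z).ncard = Z.ncard := by
    apply Set.InjOn.ncard_image
    intro x hx y hy hxy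
    by_contra hne'
    exact Set.disjoint_left.1 (hU2 hx hy hne') (hz₂ x hx) (by rw [hxy]; exact hz₂ y hy)
  have hdisj : Disjoint (z₁ '' Z) (z₂ '' Z) := by
    rw [Set.disjoint_left]
    rintro _ ⟨x, hx, rfl⟩ ⟨y, hy, hxy⟩
    by_cases hxy' : x = y
    · rw [hxy'] at hxy
      exact hne y hy hxy.symm
    · exact Set.disjoint_left.1 (hU2 hx hy hxy') (hz₁ x hx) (by rw [← hxy]; exact hz₂ y hy)
  have hsub : z₁ '' Z ∪ z₂ '' Z ⊆ S₁ ∪ S₂ := by
    rintro w (⟨x, hx, rfl⟩ | ⟨x, hx, rfl⟩)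
    · exact hmem _ (h₁ x hx)
    · exact hmem _ (h₂ x hx)
  have hcount : 2 * Z.ncard ≤ S₁.ncard + S₂.ncard := by
    have h1 := ncard_union_eq hdisj (hfin.image _) (hfin.image _)
    have h2 := ncard_le_ncard hsub (hf₁.union hf₂)
    have h3 := ncard_union_le S₁ S₂
    omega
  have hnorm : ‖(e * u : ℂ)‖ < ε := by
    rw [norm_mul, Complex.norm_real, Real.norm_eq_abs, abs_of_pos he0]
    exact he4
  rcases le_total Z.ncard S₁.ncard with h | h
  · refine ⟨-(e * u), by rw [norm_neg]; exact hnorm, hreg _ (Or.inl rfl), h⟩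
  · refine ⟨-(-(e * u)), by rw [norm_neg, norm_neg]; exact hnorm, hreg _ (Or.inr rfl), ?_⟩
    show Z.ncard ≤ S₂.ncard
    omega

end Pool.Agent.HZ
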